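import Mathlib

/-!
# Fractional moments of sums of products: i.i.d. families indexed by an arbitrary type of sites
-/

namespace Pool.Agent.W_7d29a1_f21

open MeasureTheory ProbabilityTheory Finset

noncomputable section

variable {ι : Type*} {μ : Measure ℝ} [IsProbabilityMeasure μ]

/-- The law of an i.i.d. family. -/
abbrev lw (ι : Type*) (μ : Measure ℝ) : Measure (ι → ℝ) := Measure.infinitePi fun _ : ι => μ

omit [IsProbabilityMeasure μ] in
lemma mp_integral {Ω Ω' : Type*} [MeasurableSpace Ω] [MeasurableSpace Ω'] {P : Measure Ω}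
    {P' : Measure Ω'} {f : Ω' → Ω} (hf : MeasurePreserving f P' P) {F : Ω → ℝ}
    (hF : AEStronglyMeasurable F P) : ∫ w, F (f w) ∂P' = ∫ w, F w ∂P := by
  have h : AEStronglyMeasurable F (Measure.map f P') := by rw [hf.map_eq]; exact hF
  rw [← integral_map hf.measurable.aemeasurable h, hf.map_eq]

/-- Reindexing the sites by an injective map preserves the law. -/
lemma mp_reindex {κ : Type*} {f : κ → ι} (hf : Function.Injective f) :
    MeasurePreserving (fun g : ι → ℝ => fun p : κ => g (f p)) (lw ι μ) (lw κ μ) :=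
  ⟨by fun_prop, Measure.map_infinitePi_infinitePi_of_inj (P := fun _ : ι => μ) hf⟩

lemma map_elim :
    ((lw ι μ).prod (lw ι μ)).map
      (fun (w : (ι → ℝ) × (ι → ℝ)) (p : ι ⊕ ι) => Sum.elim w.1 w.2 p) = lw (ι ⊕ ι) μ := by
  classical
  apply Measure.eq_infinitePi
  intro s t ht
  have hm : Measurable (fun (w : (ι → ℝ) × (ι → ℝ)) (p : ι ⊕ ι) => Sum.elim w.1 w.2 p) := by
    refine measurable_pi_iff.2 fun p => ?_
    cases p with
    | inl p => simp only [Sum.elim_inl]; fun_prop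
    | inr p => simp only [Sum.elim_inr]; fun_prop
  rw [Measure.map_apply hm (.pi s.countable_toSet fun i _ => ht i)]
  have h1 : (fun (w : (ι → ℝ) × (ι → ℝ)) (p : ι ⊕ ι) => Sum.elim w.1 w.2 p) ⁻¹'
      (Set.pi (s : Set _) t) =
      (Set.pi (s.toLeft : Set _) fun p => t (Sum.inl p)) ×ˢ
        (Set.pi (s.toRight : Set _) fun p => t (Sum.inr p)) := by
    ext w
    simp only [Set.mem_preimage, Set.mem_pi, Finset.mem_coe, Set.mem_prod, Finset.mem_toLeft,
      Finset.mem_toRight]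
    constructor
    · intro h
      exact ⟨fun p hp => h _ hp, fun p hp => h _ hp⟩
    · rintro ⟨h, h'⟩ p hp
      cases p with
      | inl p => exact h p hp
      | inr p => exact h' p hp
  rw [h1, Measure.prod_prod, Measure.infinitePi_pi _ (fun i _ => ht _),
    Measure.infinitePi_pi _ (fun i _ => ht _)]
  conv_rhs => rw [← Finset.toLeft_disjSum_toRight (u := s)]
  rw [Finset.prod_disjSum]

/-- Every site of the new environment is an own site of one of two independent environments. -/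
lemma mp_elim {κ : Type*} {σ : κ → ι ⊕ ι} (hσ : Function.Injective σ) :
    MeasurePreserving (fun w : (ι → ℝ) × (ι → ℝ) => fun p => Sum.elim w.1 w.2 (σ p))
      ((lw ι μ).prod (lw ι μ)) (lw κ μ) := by
  have h1 : Measurable (fun (w : (ι → ℝ) × (ι → ℝ)) (p : ι ⊕ ι) => Sum.elim w.1 w.2 p) := by
    refine measurable_pi_iff.2 fun p => ?_
    cases p with
    | inl p => simp only [Sum.elim_inl]; fun_prop
    | inr p => simp only [Sum.elim_inr]; fun_prop
  have h2 := Measure.map_infinitePi_infinitePi_of_inj (P := fun _ : ι ⊕ ι => μ) hσ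
  refine ⟨measurable_pi_iff.2 fun p => (measurable_pi_apply (σ p)).comp h1, ?_⟩
  refine Eq.trans ?_ h2
  rw [show (Measure.infinitePi fun _ : ι ⊕ ι => μ) = _ from (map_elim (ι := ι) (μ := μ)).symm,
    Measure.map_map (by fun_prop) h1]
  rfl

open Classical in
/-- The environment which is `g` on `A` and `g'` off `A`. -/
def splice (A : Set ι) (g g' : ι → ℝ) : ι → ℝ := fun p => if p ∈ A then g p else g' p

lemma splice_mem {A : Set ι} (g g' : ι → ℝ) {p : ι} (hp : p ∈ A) : splice A g g' p = g p := by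
  simp [splice, hp]

lemma splice_not_mem {A : Set ι} (g g' : ι → ℝ) {p : ι} (hp : p ∉ A) :
    splice A g g' p = g' p := by simp [splice, hp]

lemma mp_splice (A : Set ι) :
    MeasurePreserving (fun w : (ι → ℝ) × (ι → ℝ) => splice A w.1 w.2)
      ((lw ι μ).prod (lw ι μ)) (lw ι μ) := by
  classical
  have hσ : Function.Injective
      (fun p : ι => if p ∈ A then (Sum.inl p : ι ⊕ ι) else Sum.inr p) := by
    intro p q h
    simp only at h
    split_ifs at h <;> simp_all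
  have h := mp_elim (μ := μ) hσ
  convert h using 3 with w p
  unfold splice
  split_ifs <;> rfl

/-- Independence: functions of disjoint sets of sites. -/
lemma integral_mul_indep (A : Set ι) {F G : (ι → ℝ) → ℝ} (hF : Measurable F) (hG : Measurable G)
    (hFA : DependsOn F A) (hGA : DependsOn G Aᶜ) :
    ∫ g, F g * G g ∂(lw ι μ) = (∫ g, F g ∂(lw ι μ)) * ∫ g, G g ∂(lw ι μ) := by
  rw [← integral_prod_mul,
    ← mp_integral (mp_splice (μ := μ) A) (F := fun g => F g * G g)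
      (hF.mul hG).aestronglyMeasurable]
  refine integral_congr_ae (Filter.Eventually.of_forall fun w => ?_)
  simp only
  congr 1
  · exact hFA fun p hp => splice_mem _ _ hp
  · exact hGA fun p hp => splice_not_mem _ _ hp

/-- Conditioning: integrate first over the sites off `A`. -/
lemma integral_splice (A : Set ι) {F : (ι → ℝ) → ℝ} (hF : Integrable F (lw ι μ)) :
    ∫ g, F g ∂(lw ι μ) = ∫ g, ∫ g', F (splice A g g') ∂(lw ι μ) ∂(lw ι μ) := by
  have h1 := mp_splice (μ := μ) A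
  have h2 : Integrable (fun w : (ι → ℝ) × (ι → ℝ) => F (splice A w.1 w.2))
      ((lw ι μ).prod (lw ι μ)) := h1.integrable_comp_of_integrable hF
  rw [← integral_prod (fun w : (ι → ℝ) × (ι → ℝ) => F (splice A w.1 w.2)) h2]
  exact (mp_integral h1 hF.aestronglyMeasurable).symm

lemma integrable_splice (A : Set ι) {F : (ι → ℝ) → ℝ} (hF : Integrable F (lw ι μ)) :
    Integrable (fun w : (ι → ℝ) × (ι → ℝ) => F (splice A w.1 w.2))
      ((lw ι μ).prod (lw ι μ)) :=
  (mp_splice (μ := μ) A).integrable_comp_of_integrable hF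

/-- TRAVELLER: the fractional moment of a maximum over a finite set `κ` of functionals of the sites off `A` is
at most `1 / c` times the fractional moment of the sum with weights `W x` of the sites in `A` with
`E (W x) ^ θ ≥ c`. -/
theorem trav {τ : Type*} (A : Set ι) (κ : Finset τ) {W G : τ → (ι → ℝ) → ℝ} {M : (ι → ℝ) → ℝ}
    {θ c : ℝ} (hθ : 0 < θ)
    (hW0 : ∀ x ∈ κ, ∀ g, 0 ≤ W x g) (hG0 : ∀ x ∈ κ, ∀ g, 0 ≤ G x g)
    (hWA : ∀ x ∈ κ, DependsOn (W x) A) (hGA : ∀ x ∈ κ, DependsOn (G x) Aᶜ)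
    (hWi : ∀ x ∈ κ, Integrable (fun g => W x g ^ θ) (lw ι μ))
    (hc : ∀ x ∈ κ, c ≤ ∫ g, W x g ^ θ ∂(lw ι μ))
    (hi : Integrable (fun g => (∑ x ∈ κ, W x g * G x g) ^ θ) (lw ι μ))
    (hM : ∀ g, ∃ x ∈ κ, M g = G x g) (hMi : Integrable (fun g => M g ^ θ) (lw ι μ)) :
    c * ∫ g, M g ^ θ ∂(lw ι μ) ≤ ∫ g, (∑ x ∈ κ, W x g * G x g) ^ θ ∂(lw ι μ) := by
  classical
  rw [integral_splice Aᶜ hi, ← integral_const_mul]
  have h2 := integrable_splice (μ := μ) Aᶜ hi
  have h3 : ∀ᵐ g ∂(lw ι μ), Integrable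
      (fun g' => (∑ x ∈ κ, W x (splice Aᶜ g g') * G x (splice Aᶜ g g')) ^ θ) (lw ι μ) :=
    h2.prod_right_ae
  refine integral_mono_ae (hMi.const_mul c) h2.integral_prod_left ?_
  filter_upwards [h3] with g hg
  obtain ⟨x, hx, hMx⟩ := hM g
  have hW : ∀ y ∈ κ, ∀ g', W y (splice Aᶜ g g') = W y g' := fun y hy g' =>
    hWA y hy fun p hp => splice_not_mem _ _ (by simpa using hp)
  have hG : ∀ y ∈ κ, ∀ g', G y (splice Aᶜ g g') = G y g := fun y hy g' =>
    hGA y hy fun p hp => splice_mem _ _ hp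
  have h4 : ∀ g', W x g' ^ θ * G x g ^ θ ≤
      (∑ y ∈ κ, W y (splice Aᶜ g g') * G y (splice Aᶜ g g')) ^ θ := by
    intro g'
    rw [← Real.mul_rpow (hW0 x hx g') (hG0 x hx g)]
    refine Real.rpow_le_rpow (mul_nonneg (hW0 x hx g') (hG0 x hx g)) ?_ hθ.le
    have h5 := Finset.single_le_sum (s := κ)
      (f := fun y => W y (splice Aᶜ g g') * G y (splice Aᶜ g g'))
      (fun y hy => mul_nonneg (hW0 y hy _) (hG0 y hy _)) hx
    simp only [hW x hx, hG x hx] at h5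
    exact h5
  calc c * M g ^ θ = c * G x g ^ θ := by rw [hMx]
    _ ≤ (∫ g', W x g' ^ θ ∂(lw ι μ)) * G x g ^ θ :=
        mul_le_mul_of_nonneg_right (hc x hx) (Real.rpow_nonneg (hG0 x hx g) _)
    _ = ∫ g', W x g' ^ θ * G x g ^ θ ∂(lw ι μ) := (integral_mul_const _ _).symm
    _ ≤ _ := integral_mono ((hWi x hx).mul_const _) hg h4

/-- Concavity: `(∑ w x * a x) ^ θ ≥ (∑ w x) ^ (θ - 1) * ∑ w x * a x ^ θ`. -/
lemma conc_sum {τ : Type*} (κ : Finset τ) {w a : τ → ℝ} {θ : ℝ} (hθ : 0 < θ) (hθ1 : θ ≤ 1)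
    (hw : ∀ x ∈ κ, 0 ≤ w x) (ha : ∀ x ∈ κ, 0 ≤ a x) (hs : 0 < ∑ x ∈ κ, w x) :
    (∑ x ∈ κ, w x) ^ (θ - 1) * ∑ x ∈ κ, w x * a x ^ θ ≤ (∑ x ∈ κ, w x * a x) ^ θ := by
  set S := ∑ x ∈ κ, w x with hS
  have h1 := (Real.concaveOn_rpow hθ.le hθ1).le_map_sum (t := κ) (w := fun x => w x / S)
    (p := a) (fun x hx => div_nonneg (hw x hx) hs.le)
    (by rw [← Finset.sum_div]; exact div_self hs.ne') (fun x hx => ha x hx)
  simp only [smul_eq_mul] at h1
  have h2 : ∑ x ∈ κ, w x / S * a x = (∑ x ∈ κ, w x * a x) / S := by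
    rw [Finset.sum_div]
    exact Finset.sum_congr rfl fun x _ => by ring
  have h3 : ∑ x ∈ κ, w x / S * a x ^ θ = (∑ x ∈ κ, w x * a x ^ θ) / S := by
    rw [Finset.sum_div]
    exact Finset.sum_congr rfl fun x _ => by ring
  rw [h2, h3, Real.div_rpow (Finset.sum_nonneg fun x hx => mul_nonneg (hw x hx) (ha x hx)) hs.le,
    div_le_div_iff₀ hs (Real.rpow_pos_of_pos hs θ)] at h1
  rw [Real.rpow_sub_one hs.ne']
  rw [div_mul_eq_mul_div, div_le_iff₀ hs]
  linarith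

/-- SUPERMULTIPLICATIVITY: `E (∑ W x G x) ^ θ ≥ c E (∑ W x) ^ θ` if `E (G x) ^ θ ≥ c` for all `x`. -/
theorem supmul {τ : Type*} (A : Set ι) (κ : Finset τ) {W G : τ → (ι → ℝ) → ℝ}
    {θ c : ℝ} (hθ : 0 < θ) (hθ1 : θ ≤ 1)
    (hW0 : ∀ x ∈ κ, ∀ g, 0 ≤ W x g) (hG0 : ∀ x ∈ κ, ∀ g, 0 ≤ G x g)
    (hWA : ∀ x ∈ κ, DependsOn (W x) A) (hGA : ∀ x ∈ κ, DependsOn (G x) Aᶜ)
    (hGi : ∀ x ∈ κ, Integrable (fun g => G x g ^ θ) (lw ι μ))
    (hc : ∀ x ∈ κ, c ≤ ∫ g, G x g ^ θ ∂(lw ι μ))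
    (hi : Integrable (fun g => (∑ x ∈ κ, W x g * G x g) ^ θ) (lw ι μ))
    (hWi : Integrable (fun g => (∑ x ∈ κ, W x g) ^ θ) (lw ι μ)) :
    c * ∫ g, (∑ x ∈ κ, W x g) ^ θ ∂(lw ι μ) ≤ ∫ g, (∑ x ∈ κ, W x g * G x g) ^ θ ∂(lw ι μ) := by
  classical
  rw [integral_splice A hi, ← integral_const_mul]
  have h2 := integrable_splice (μ := μ) A hi
  have h3 : ∀ᵐ g ∂(lw ι μ), Integrable
      (fun g' => (∑ x ∈ κ, W x (splice A g g') * G x (splice A g g')) ^ θ) (lw ι μ) :=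
    h2.prod_right_ae
  refine integral_mono_ae (hWi.const_mul c) h2.integral_prod_left ?_
  filter_upwards [h3] with g hg
  have hW : ∀ y ∈ κ, ∀ g', W y (splice A g g') = W y g := fun y hy g' =>
    hWA y hy fun p hp => splice_mem _ _ hp
  have hG : ∀ y ∈ κ, ∀ g', G y (splice A g g') = G y g' := fun y hy g' =>
    hGA y hy fun p hp => splice_not_mem _ _ hp
  have hS0 : 0 ≤ ∑ x ∈ κ, W x g := Finset.sum_nonneg fun x hx => hW0 x hx g
  rcases hS0.eq_or_lt with hS | hS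
  · have h5 : (∑ x ∈ κ, W x g) ^ θ = 0 := by rw [← hS]; exact Real.zero_rpow hθ.ne'
    rw [h5, mul_zero]
    exact integral_nonneg fun g' => Real.rpow_nonneg
      (Finset.sum_nonneg fun x hx => mul_nonneg (hW0 x hx _) (hG0 x hx _)) _
  set S := ∑ x ∈ κ, W x g with hSdef
  have h4 : ∀ g', S ^ (θ - 1) * ∑ x ∈ κ, W x g * G x g' ^ θ ≤
      (∑ y ∈ κ, W y (splice A g g') * G y (splice A g g')) ^ θ := by
    intro g'
    have h5 := conc_sum κ (w := fun x => W x g) (a := fun x => G x g') hθ hθ1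
      (fun x hx => hW0 x hx g) (fun x hx => hG0 x hx g') hS
    refine h5.trans_eq ?_
    congr 1
    exact Finset.sum_congr rfl fun x hx => by rw [hW x hx, hG x hx]
  have h6 : Integrable (fun g' => S ^ (θ - 1) * ∑ x ∈ κ, W x g * G x g' ^ θ) (lw ι μ) :=
    (integrable_finsetSum _ fun x hx => (hGi x hx).const_mul _).const_mul _
  refine le_trans ?_ (integral_mono h6 hg h4)
  rw [integral_const_mul, integral_finsetSum _ fun x hx => (hGi x hx).const_mul _]
  have h7 : c * S ^ θ = S ^ (θ - 1) * ∑ x ∈ κ, W x g * c := by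
    rw [← Finset.sum_mul, ← hSdef, Real.rpow_sub_one hS.ne']
    field_simp
  rw [h7]
  refine mul_le_mul_of_nonneg_left ?_ (Real.rpow_nonneg hS.le _)
  refine Finset.sum_le_sum fun x hx => ?_
  rw [integral_const_mul]
  exact mul_le_mul_of_nonneg_left (hc x hx) (hW0 x hx g)

/-- SUBMULTIPLICATIVITY. -/
theorem submul {τ : Type*} (A : Set ι) (κ : Finset τ) {W G : τ → (ι → ℝ) → ℝ} {M : (ι → ℝ) → ℝ}
    {θ : ℝ} (hθ : 0 < θ)
    (hWm : ∀ x ∈ κ, Measurable (W x))
    (hW0 : ∀ x ∈ κ, ∀ g, 0 ≤ W x g)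
    (hWA : ∀ x ∈ κ, DependsOn (W x) A) (hMA : DependsOn M Aᶜ) (hMm : Measurable M)
    (hM0 : ∀ g, 0 ≤ M g) (hG0 : ∀ x ∈ κ, ∀ g, 0 ≤ G x g) (hGM : ∀ x ∈ κ, ∀ g, G x g ≤ M g)
    (hi : Integrable (fun g => (∑ x ∈ κ, W x g) ^ θ * M g ^ θ) (lw ι μ)) :
    ∫ g, (∑ x ∈ κ, W x g * G x g) ^ θ ∂(lw ι μ) ≤
      (∫ g, (∑ x ∈ κ, W x g) ^ θ ∂(lw ι μ)) * ∫ g, M g ^ θ ∂(lw ι μ) := by
  rw [← integral_mul_indep A (F := fun g => (∑ x ∈ κ, W x g) ^ θ) (G := fun g => M g ^ θ)
    ((Finset.measurable_sum _ hWm).pow_const θ) (hMm.pow_const θ) ?_ ?_]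
  · refine integral_mono_of_nonneg (Filter.Eventually.of_forall fun g => Real.rpow_nonneg
      (Finset.sum_nonneg fun x hx => mul_nonneg (hW0 x hx _) (hG0 x hx _)) _) hi
      (Filter.Eventually.of_forall fun g => ?_)
    simp only
    rw [← Real.mul_rpow (Finset.sum_nonneg fun x hx => hW0 x hx g) (hM0 g)]
    refine Real.rpow_le_rpow (Finset.sum_nonneg fun x hx =>
      mul_nonneg (hW0 x hx _) (hG0 x hx _)) ?_ hθ.le
    rw [Finset.sum_mul]
    exact Finset.sum_le_sum fun x hx => mul_le_mul_of_nonneg_left (hGM x hx g) (hW0 x hx g)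
  · intro g g' h
    simp only
    congr 1
    exact Finset.sum_congr rfl fun x hx => hWA x hx h
  · intro g g' h
    simp only
    rw [hMA h]

end

end Pool.Agent.W_7d29a1_f21
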