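import Mathlib

/-!
# Theorem F, tubes: dyadic chaining with one sided increments (deterministic)
-/

namespace Pool.Agent.W_7d29a1_f21

open Finset

/-- The dyadic times. -/
def dy (T m j : ℕ) : ℕ := j * T / 2 ^ m

lemma dy_zero (T m : ℕ) : dy T m 0 = 0 := by simp [dy]

lemma dy_top (T m : ℕ) : dy T m (2 ^ m) = T := by
  unfold dy
  exact Nat.mul_div_cancel_left T (by positivity)

lemma dy_double (T m j : ℕ) : dy T (m + 1) (2 * j) = dy T m j := by
  unfold dy
  rw [pow_succ, mul_comm (2 ^ m) 2, mul_assoc]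
  exact Nat.mul_div_mul_left _ _ (by norm_num)

lemma dy_mono (T m : ℕ) {i j : ℕ} (h : i ≤ j) : dy T m i ≤ dy T m j :=
  Nat.div_le_div_right (Nat.mul_le_mul_right T h)

lemma dy_le (T m : ℕ) {j : ℕ} (h : j ≤ 2 ^ m) : dy T m j ≤ T := by
  have := dy_mono T m h
  rwa [dy_top] at this

/-- Every time is a dyadic time of a fine level. -/
lemma exists_dy {T M : ℕ} (hT : T ≤ 2 ^ M) {t : ℕ} (ht : t ≤ T) : ∃ j ≤ 2 ^ M, dy T M j = t := by
  rcases Nat.eq_zero_or_pos T with rfl | hT0
  · exact ⟨0, by simp, by simp [dy]; omega⟩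
  -- j = ceil (t 2^M / T)
  refine ⟨(t * 2 ^ M + (T - 1)) / T, ?_, ?_⟩
  · rw [Nat.div_le_iff_le_mul_add_pred hT0]
    nlinarith [Nat.mul_le_mul_right (2 ^ M) ht]
  · unfold dy
    set q := (t * 2 ^ M + (T - 1)) / T with hq
    have h1 : q * T ≤ t * 2 ^ M + (T - 1) := Nat.div_mul_le_self _ _
    have h2 : t * 2 ^ M ≤ q * T := by
      have h3 := Nat.div_add_mod (t * 2 ^ M + (T - 1)) T
      have h4 := Nat.mod_lt (t * 2 ^ M + (T - 1)) hT0
      rw [← hq] at h3
      have h5 : T * q = q * T := mul_comm _ _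
      omega
    rw [Nat.div_eq_iff (by positivity)]
    constructor
    · exact h2
    · omega

/-- Violation of the one sided increment bound. -/
def Viol (T : ℕ) (y w : ℕ → ℝ) (m j : ℕ) : Prop := w m < y (dy T m (j + 1)) - y (dy T m j)

lemma chain_level {T : ℕ} {y w : ℕ → ℝ} (hw : ∀ m, 0 ≤ w m) (m : ℕ)
    (h : ∀ k, 1 ≤ k → k ≤ m → ∀ j < 2 ^ k, ¬ Viol T y w k j) :
    ∀ j ≤ 2 ^ m, y (dy T m j) ≤ max (y 0) (y T) + ∑ k ∈ Icc 1 m, w k ∧
      min (y 0) (y T) - ∑ k ∈ Icc 1 m, w k ≤ y (dy T m j) := by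
  induction m with
  | zero =>
    intro j hj
    have hj' : j = 0 ∨ j = 1 := by simp at hj; omega
    rcases hj' with rfl | rfl
    · simp [dy]
    · simp [dy]
  | succ m ih =>
    have ih' := ih fun k h1 h2 => h k h1 (by omega)
    intro j hj
    have hs : ∑ k ∈ Icc 1 (m + 1), w k = ∑ k ∈ Icc 1 m, w k + w (m + 1) :=
      Finset.sum_Icc_succ_top (by omega) _
    rcases Nat.even_or_odd' j with ⟨c, rfl | rfl⟩
    · rw [dy_double]
      have hc : c ≤ 2 ^ m := by rw [pow_succ] at hj; omega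
      have h1 := ih' c hc
      have h2 := hw (m + 1)
      rw [hs]
      constructor <;> linarith [h1.1, h1.2]
    · have hc : c + 1 ≤ 2 ^ m := by rw [pow_succ] at hj; omega
      have h1 := ih' c (by omega)
      have h2 := ih' (c + 1) hc
      rw [← dy_double] at h1 h2
      have hj2 : 2 * c + 1 < 2 ^ (m + 1) := by rw [pow_succ]; omega
      have h3 := h (m + 1) (by omega) le_rfl (2 * c) (by omega)
      have h4 := h (m + 1) (by omega) le_rfl (2 * c + 1) hj2
      unfold Viol at h3 h4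
      rw [not_lt] at h3 h4
      have e : 2 * c + 1 + 1 = 2 * (c + 1) := by ring
      rw [e] at h4
      rw [hs]
      constructor <;> linarith [h1.1, h1.2, h2.1, h2.2]

/-- A path which leaves the tube has a violated dyadic increment, one end of which is in the tube. -/
theorem exit {T M : ℕ} (hT : T ≤ 2 ^ M) {y w : ℕ → ℝ} {W : ℝ} (hw : ∀ m, 0 ≤ w m)
    (hW : ∑ k ∈ Icc 1 M, w k ≤ W) (h0 : y 0 = 0) (h1 : y T = 0) {t : ℕ} (ht : t ≤ T)
    (hex : W < |y t|) :
    ∃ m, 1 ≤ m ∧ m ≤ M ∧ ∃ j < 2 ^ m, Viol T y w m j ∧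
      (|y (dy T m j)| ≤ W ∨ |y (dy T m (j + 1))| ≤ W) := by
  classical
  by_contra hcon
  push Not at hcon
  have key : ∀ m, m ≤ M → ∀ k, 1 ≤ k → k ≤ m → ∀ j < 2 ^ k, ¬ Viol T y w k j := by
    intro m
    induction m with
    | zero => intro _ k h2 h3; omega
    | succ m ih =>
      intro hm k hk1 hk2 j hj
      rcases Nat.lt_or_ge k (m + 1) with h2 | h2
      · exact ih (by omega) k hk1 (by omega) j hj
      · have hk : k = m + 1 := by omega
        subst hk
        intro hv
        have h3 := chain_level hw m (ih (by omega))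
        have h4 : ∑ k ∈ Icc 1 m, w k ≤ W := by
          refine le_trans (Finset.sum_le_sum_of_subset_of_nonneg ?_ fun i _ _ => hw i) hW
          intro i hi
          rw [mem_Icc] at hi ⊢
          omega
        have h5 : ∀ c ≤ 2 ^ m, |y (dy T (m + 1) (2 * c))| ≤ W := by
          intro c hc
          rw [dy_double]
          have h6 := h3 c hc
          rw [h0, h1, max_self, min_self] at h6
          rw [abs_le]
          constructor <;> linarith [h6.1, h6.2]
        have h6 := hcon (m + 1) hk1 hm j hj hv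
        rcases Nat.even_or_odd' j with ⟨c, rfl | rfl⟩
        · have h7 := h5 c (by rw [pow_succ] at hj; omega)
          exact absurd h7 (not_le.2 h6.1)
        · have h7 := h5 (c + 1) (by rw [pow_succ] at hj; omega)
          have e : 2 * (c + 1) = 2 * c + 1 + 1 := by ring
          rw [e] at h7
          exact absurd h7 (not_le.2 h6.2)
  have h2 := chain_level hw M (key M le_rfl)
  obtain ⟨j, hj, rfl⟩ := exists_dy hT ht
  have h3 := h2 j hj
  rw [h0, h1, max_self, min_self] at h3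
  have h4 : |y (dy T M j)| ≤ W := by
    rw [abs_le]
    constructor <;> linarith [h3.1, h3.2]
  linarith

/-- Number of levels which matter: spacing of the dyadic times. -/
lemma dy_succ_le (T m j : ℕ) : dy T m (j + 1) ≤ dy T m j + T / 2 ^ m + 1 := by
  unfold dy
  rw [add_mul, one_mul]
  have h := Nat.add_div_le_add_div (j * T) T (2 ^ m)
  have h2 : 0 < 2 ^ m := by positivity
  rw [Nat.div_le_iff_le_mul_add_pred h2]
  have h3 := Nat.div_add_mod (j * T) (2 ^ m)
  have h4 := Nat.div_add_mod T (2 ^ m)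
  have h5 := Nat.mod_lt (j * T) h2
  have h6 := Nat.mod_lt T h2
  have h7 : 2 ^ m * (j * T / 2 ^ m + T / 2 ^ m + 1) = 2 ^ m * (j * T / 2 ^ m) + 2 ^ m * (T / 2 ^ m) + 2 ^ m := by
    ring
  rw [h7]
  omega

lemma le_dy_succ (T m j : ℕ) : dy T m j + T / 2 ^ m ≤ dy T m (j + 1) := by
  unfold dy
  rw [add_mul, one_mul]
  exact Nat.add_div_le_add_div (j * T) T (2 ^ m)

end Pool.Agent.W_7d29a1_f21
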