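import Mathlib

/-!
# Theorem F, windows: the edge positions and the relative widths (pure sequences)

`D i v γ` stands for `Dec (θ_i) v γ`: for all `N ≥ 1`, `E F_N(v) ^ θ_i ≤ exp (- N γ)`.
-/

namespace Pool.Agent.W_7d29a1_f21

open Filter Topology

/-- The edge positions `v i` and the relative widths `U i`. -/
theorem win {D : ℕ → ℝ → ℝ → Prop} {v2 : ℝ} {L lam fl : ℕ → ℝ} {mu : ℝ}
    (hmu : 4 ≤ mu) (hL : ∀ i, 0 < L i) (hv2 : v2 ≤ 1)
    (hmg : ∀ i v γ γ', γ' ≤ γ → D i v γ → D i v γ')
    (hmv : ∀ i v v' γ, v ≤ v' → D i v γ → D i v' γ)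
    (hsc : ∀ i v γ, 0 ≤ γ → D i v γ → D (i + 1) v (lam i * γ))
    (hlam : ∀ i, mu * L i ≤ lam i * L (i + 1))
    (hlow : ∀ i v γ, v ≤ v2 → 0 < γ → ¬ D i v γ)
    (htop : ∀ i v γ, 1 < v → D i v γ)
    (hfl : ∀ i, 0 < fl i) (hfs : Summable fl) :
    ∃ v U : ℕ → ℝ, Antitone v ∧ (∀ i, v2 ≤ v i) ∧ (∀ i, v i ≤ 1) ∧ (∀ i, fl i ≤ U i) ∧
      Summable U ∧ (∀ i x, x < v i → ¬ D i x (1 / L i)) ∧
      (∀ i x, v i < x → D i x ((x - v i) / (U i * L i))) := by
  set S : ℕ → Set ℝ := fun i => {x | ¬ D i x (1 / L i)} with hS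
  have hne : ∀ i, v2 ∈ S i := fun i => hlow i v2 _ le_rfl (by have := hL i; positivity)
  have hbd : ∀ i, ∀ x ∈ S i, x ≤ 1 := by
    intro i x hx
    by_contra h
    exact hx (htop i x _ (not_le.1 h))
  have hbdd : ∀ i, BddAbove (S i) := fun i => ⟨1, fun x hx => hbd i x hx⟩
  set v : ℕ → ℝ := fun i => sSup (S i) with hv
  have hv_ge : ∀ i, v2 ≤ v i := fun i => le_csSup (hbdd i) (hne i)
  have hv_le : ∀ i, v i ≤ 1 := fun i => csSup_le ⟨v2, hne i⟩ (hbd i)
  have hbelow : ∀ i x, x < v i → ¬ D i x (1 / L i) := by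
    intro i x hx hD
    obtain ⟨y, hy, hxy⟩ := exists_lt_of_lt_csSup ⟨v2, hne i⟩ hx
    exact hy (hmv i x y _ hxy.le hD)
  have habove : ∀ i x, v i < x → D i x (1 / L i) := by
    intro i x hx
    by_contra h
    exact absurd (le_csSup (hbdd i) (show x ∈ S i from h)) (not_le.2 hx)
  have hmu0 : 0 < mu := by linarith
  have hanti : ∀ i, v (i + 1) ≤ v i := by
    intro i
    refine csSup_le ⟨v2, hne (i + 1)⟩ fun x hx => ?_
    by_contra h
    have h1 := hsc i x _ (by have := hL i; positivity) (habove i x (not_le.1 h))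
    refine hx (hmg _ _ _ _ ?_ h1)
    have hLi := hL i
    have hLi1 := hL (i + 1)
    rw [div_le_iff₀ hLi1]
    have h2 := hlam i
    have h3 : lam i * (1 / L i) * L (i + 1) = lam i * L (i + 1) / L i := by ring
    rw [h3, le_div_iff₀ hLi]
    nlinarith
  -- the widths
  let U : ℕ → ℝ := fun i => Nat.rec (2 + (1 - v2) + fl 0) (fun j u => (v j - v (j + 1)) + u / mu + fl (j + 1)) i
  have hU0 : U 0 = 2 + (1 - v2) + fl 0 := rfl
  have hU1 : ∀ i, U (i + 1) = (v i - v (i + 1)) + U i / mu + fl (i + 1) := fun i => rfl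
  have hUfl : ∀ i, fl i ≤ U i := by
    intro i
    induction i with
    | zero => rw [hU0]; linarith
    | succ i ih =>
      rw [hU1]
      have h1 := hanti i
      have h2 : 0 < U i := (hfl i).trans_le ih
      have h3 : 0 ≤ U i / mu := by positivity
      linarith
  have hUpos : ∀ i, 0 < U i := fun i => (hfl i).trans_le (hUfl i)
  have hH : ∀ i x, v i < x → D i x ((x - v i) / (U i * L i)) := by
    intro i
    induction i with
    | zero =>
      intro x hx
      rcases lt_or_ge 1 x with h1 | h1
      · exact htop _ _ _ h1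
      refine hmg _ _ _ _ ?_ (habove 0 x hx)
      have hL0 := hL 0
      rw [← div_div]
      refine div_le_div_of_nonneg_right ?_ hL0.le
      rw [div_le_one (hUpos 0), hU0]
      have := hv_ge 0
      have := hfl 0
      linarith
    | succ i ih =>
      intro x hx
      have hLi := hL i
      have hLi1 := hL (i + 1)
      have hUi := hUpos i
      have hUi1 := hUpos (i + 1)
      rcases le_or_gt (x - v (i + 1)) (U (i + 1)) with h1 | h1
      · refine hmg _ _ _ _ ?_ (habove (i + 1) x hx)
        rw [← div_div]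
        refine div_le_div_of_nonneg_right ?_ hLi1.le
        rwa [div_le_one hUi1]
      · have h2 : v i < x := by
          rw [hU1] at h1
          have h3 : 0 ≤ U i / mu := by positivity
          have h4 := hfl (i + 1)
          linarith
        have h3 := hsc i x _ (by have : 0 < x - v i := by linarith
                                 positivity) (ih x h2)
        refine hmg _ _ _ _ ?_ h3
        -- (x - v') / (U' L') ≤ lam (x - v) / (U L)
        have h4 : (mu * (x - v i)) / (U i * L (i + 1)) ≤ lam i * ((x - v i) / (U i * L i)) := by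
          have h5 : lam i * ((x - v i) / (U i * L i)) = (lam i * L (i + 1)) * (x - v i) /
              (U i * L i * L (i + 1)) := by
            field_simp
          rw [h5, div_le_div_iff₀ (by positivity) (by positivity)]
          have h6 : 0 ≤ (x - v i) * (U i * L (i + 1)) := by
            have : 0 < x - v i := by linarith
            positivity
          have h7 := mul_le_mul_of_nonneg_right (hlam i) h6
          calc mu * (x - v i) * (U i * L i * L (i + 1)) = mu * L i * ((x - v i) * (U i * L (i + 1))) := by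
                ring
            _ ≤ lam i * L (i + 1) * ((x - v i) * (U i * L (i + 1))) := h7
            _ = lam i * L (i + 1) * (x - v i) * (U i * L (i + 1)) := by ring
        refine le_trans ?_ h4
        rw [div_le_div_iff₀ (by positivity) (by positivity)]
        have h8 : (x - v (i + 1)) * U i ≤ mu * (x - v i) * U (i + 1) := by
          have h9 := hU1 i
          have h10 : v i = v (i + 1) + U (i + 1) - U i / mu - fl (i + 1) := by linarith
          have h11 : mu * (x - v i) = mu * (x - v (i + 1) - U (i + 1)) + U i + mu * fl (i + 1) := by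
            rw [h10]; field_simp; ring
          rw [h11]
          have h12 : U i ≤ mu * U (i + 1) := by
            rw [hU1]
            have h13 : mu * (U i / mu) = U i := by field_simp
            have h14 : 0 ≤ mu * (v i - v (i + 1)) := by
              have := hanti i
              have : 0 ≤ v i - v (i + 1) := by linarith
              positivity
            have h15 : 0 < mu * fl (i + 1) := by have := hfl (i + 1); positivity
            nlinarith
          have h16 : 0 ≤ x - v (i + 1) - U (i + 1) := by linarith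
          have h17 := mul_le_mul_of_nonneg_left h12 h16
          have h18 : 0 ≤ mu * fl (i + 1) * U (i + 1) := by have := (hfl (i + 1)).le; positivity
          nlinarith
        calc (x - v (i + 1)) * (U i * L (i + 1)) = ((x - v (i + 1)) * U i) * L (i + 1) := by ring
          _ ≤ (mu * (x - v i) * U (i + 1)) * L (i + 1) := mul_le_mul_of_nonneg_right h8 hLi1.le
          _ = mu * (x - v i) * (U (i + 1) * L (i + 1)) := by ring
  refine ⟨v, U, antitone_nat_of_succ_le hanti, hv_ge, hv_le, hUfl, ?_, hbelow, hH⟩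
  -- summability
  refine summable_of_sum_range_le (c := 2 * (U 0 + (1 - v2) + ∑' i, fl i)) (fun i => (hUpos i).le) fun n => ?_
  have hflsum : ∀ n, ∑ i ∈ Finset.range n, fl i ≤ ∑' i, fl i := fun n =>
    hfs.sum_le_tsum _ fun i _ => (hfl i).le
  have key : ∀ n, ∑ i ∈ Finset.range (n + 1), U i ≤ U 0 + (v 0 - v n) +
      (∑ i ∈ Finset.range n, U i) / mu + ∑ i ∈ Finset.range n, fl (i + 1) := by
    intro n
    induction n with
    | zero => simp
    | succ n ih =>
      rw [Finset.sum_range_succ, hU1, Finset.sum_range_succ (fun i => U i) n,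
        Finset.sum_range_succ (fun i => fl (i + 1)) n]
      rw [Finset.sum_range_succ (fun i => U i) n] at ih
      rw [add_div]
      linarith
  have h0 : ∀ n, 0 ≤ ∑ i ∈ Finset.range n, U i := fun n => Finset.sum_nonneg fun i _ => (hUpos i).le
  have hle : ∑ i ∈ Finset.range n, U i ≤ ∑ i ∈ Finset.range (n + 1), U i := by
    rw [Finset.sum_range_succ]; linarith [hUpos n]
  have h1 := key n
  have h2 : (∑ i ∈ Finset.range n, U i) / mu ≤ (∑ i ∈ Finset.range n, U i) / 2 :=
    div_le_div_of_nonneg_left (h0 n) (by norm_num) (by linarith)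
  have h3 : ∑ i ∈ Finset.range n, fl (i + 1) ≤ ∑' i, fl i := by
    refine le_trans ?_ (hflsum (n + 1))
    rw [Finset.sum_range_succ']
    linarith [hfl 0]
  have h4 := hv_le 0
  have h5 := hv_ge n
  linarith

end Pool.Agent.W_7d29a1_f21

namespace Pool.Agent.W_7d29a1_f21

open Filter Topology

/-- The widths `U*`. -/
theorem ustar {v U : ℕ → ℝ} {v2 r : ℝ} (hr : 0 < r) (hr1 : r < 1) (hv : Antitone v)
    (hv2 : ∀ i, v2 ≤ v i) (hU : ∀ i, 0 ≤ U i) (hUs : Summable U) :
    ∃ Us : ℕ → ℝ, Summable Us ∧ (∀ i, U i ≤ Us i) ∧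
      ∀ i p, p ≤ i → r ^ p * (U (i - p) + (v (i - p) - v i)) ≤ 2 * Us i := by
  let Us : ℕ → ℝ := fun i => Nat.rec (U 0) (fun j u => r * u + (v j - v (j + 1)) + U (j + 1)) i
  have h0 : Us 0 = U 0 := rfl
  have h1 : ∀ i, Us (i + 1) = r * Us i + (v i - v (i + 1)) + U (i + 1) := fun i => rfl
  have hd : ∀ i, 0 ≤ v i - v (i + 1) := fun i => by have := hv (Nat.le_succ i); simp at this; linarith
  have hge : ∀ i, U i ≤ Us i := by
    intro i
    induction i with
    | zero => rw [h0]
    | succ i ih =>
      rw [h1]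
      have := hU i
      have : 0 ≤ r * Us i := mul_nonneg hr.le (this.trans ih)
      linarith [hd i]
  have hpos : ∀ i, 0 ≤ Us i := fun i => (hU i).trans (hge i)
  refine ⟨Us, ?_, hge, ?_⟩
  · refine summable_of_sum_range_le (c := (U 0 + (v 0 - v2) + ∑' i, U i) / (1 - r)) hpos fun n => ?_
    rw [le_div_iff₀ (by linarith)]
    have key : ∀ n, ∑ i ∈ Finset.range (n + 1), Us i ≤ U 0 + (v 0 - v n) +
        r * (∑ i ∈ Finset.range n, Us i) + ∑ i ∈ Finset.range n, U (i + 1) := by
      intro n
      induction n with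
      | zero => simp [h0]
      | succ n ih =>
        rw [Finset.sum_range_succ, h1, Finset.sum_range_succ (fun i => Us i) n,
          Finset.sum_range_succ (fun i => U (i + 1)) n]
        rw [Finset.sum_range_succ (fun i => Us i) n] at ih
        rw [mul_add]
        linarith
    have h2 : ∑ i ∈ Finset.range n, Us i ≤ ∑ i ∈ Finset.range (n + 1), Us i := by
      rw [Finset.sum_range_succ]; linarith [hpos n]
    have h3 : ∑ i ∈ Finset.range n, U (i + 1) ≤ ∑' i, U i := by
      have := hUs.sum_le_tsum (Finset.range (n + 1)) fun i _ => hU i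
      rw [Finset.sum_range_succ'] at this
      linarith [hU 0]
    have h4 := key n
    have h5 := hv2 n
    linarith
  · intro i p
    induction p generalizing i with
    | zero => intro _; simp; linarith [hge i, hpos i]
    | succ p ih =>
      intro hp
      obtain ⟨j, rfl⟩ : ∃ j, i = j + 1 := ⟨i - 1, by omega⟩
      have e : j + 1 - (p + 1) = j - p := by omega
      rw [e]
      have h2 : Us (j + 1) = r * Us j + (v j - v (j + 1)) + U (j + 1) := h1 j
      have h3 := hd j
      have h4 := hU (j + 1)
      have h5 := ih j (by omega)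
      have h6 : r ^ (p + 1) * (U (j - p) + (v (j - p) - v (j + 1))) =
          r * (r ^ p * (U (j - p) + (v (j - p) - v j))) + r ^ (p + 1) * (v j - v (j + 1)) := by
        ring
      rw [h6, h2]
      have h7 : r ^ (p + 1) ≤ 1 := pow_le_one₀ hr.le hr1.le
      have h8 : r ^ (p + 1) * (v j - v (j + 1)) ≤ 1 * (v j - v (j + 1)) :=
        mul_le_mul_of_nonneg_right h7 h3
      have h9 := mul_le_mul_of_nonneg_left h5 hr.le
      linarith

end Pool.Agent.W_7d29a1_f21
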