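import Mathlib

/-!
# Theorem F, tubes: the numerical estimates of the exit bound (pure)

`L i = L0 * 2 ^ (16 i)`, `r = 2 ^ (-1/4)`, `w m = CW * Us i * L i * 2 ^ (- m / 64) / 128`.
-/

namespace Pool.Agent.W_7d29a1_f21

open Finset

/-- The increments allowed at the dyadic level `m`. -/
noncomputable def wm (W : ℝ) (m : ℕ) : ℝ := W * (2 : ℝ) ^ (-((m : ℝ) / 64)) / 128

lemma wm_nonneg {W : ℝ} (hW : 0 ≤ W) (m : ℕ) : 0 ≤ wm W m := by unfold wm; positivity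

lemma two_rpow_le : (2 : ℝ) ^ (-(1 / 64 : ℝ)) ≤ 127 / 128 := by
  -- (127/128)^64 ≥ 1/2
  have h1 : (2 : ℝ) ^ (-(1 / 64 : ℝ)) = (1 / 2 : ℝ) ^ (1 / 64 : ℝ) := by
    rw [Real.rpow_neg (by norm_num), ← Real.inv_rpow (by norm_num)]
    norm_num
  rw [h1]
  have h2 : (1 / 2 : ℝ) ^ (1 / 64 : ℝ) ≤ ((127 / 128 : ℝ) ^ (64 : ℝ)) ^ (1 / 64 : ℝ) := by
    refine Real.rpow_le_rpow (by norm_num) ?_ (by norm_num)
    rw [show (64 : ℝ) = ((64 : ℕ) : ℝ) by norm_num, Real.rpow_natCast]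
    norm_num
  refine h2.trans_eq ?_
  rw [← Real.rpow_mul (by norm_num)]
  norm_num

lemma sum_wm_le {W : ℝ} (hW : 0 ≤ W) (M : ℕ) : ∑ k ∈ Icc 1 M, wm W k ≤ W := by
  set ρ : ℝ := (2 : ℝ) ^ (-(1 / 64 : ℝ)) with hρ
  have h1 : ∀ k : ℕ, wm W k = W * ρ ^ k / 128 := by
    intro k
    unfold wm
    rw [hρ, ← Real.rpow_natCast, ← Real.rpow_mul (by norm_num)]
    congr 3
    ring
  have h2 : ∀ M, ∑ k ∈ Icc 1 M, wm W k ≤ W * (1 - ρ ^ M) := by
    intro M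
    induction M with
    | zero => simp
    | succ M ih =>
      rw [Finset.sum_Icc_succ_top (by omega), h1]
      have h3 : ρ ≤ 127 / 128 := two_rpow_le
      have h4 : 0 < ρ := by positivity
      have h5 : 0 ≤ W * ρ ^ M := by positivity
      rw [pow_succ]
      nlinarith
  refine (h2 M).trans ?_
  have : 0 ≤ W * ρ ^ M := by positivity
  nlinarith

/-- The choice of the scale `p` for the dyadic level `m`. -/
theorem num {v U Us B L : ℕ → ℝ} {L0 : ℝ} (hL : ∀ i, L i = L0 * 2 ^ (16 * i)) (hL0 : 1 ≤ L0)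
    (hv : Antitone v) (hU : ∀ i, 0 < U i) (hUU : ∀ i, U i ≤ Us i)
    (hUs : ∀ i p, p ≤ i →
      ((2 : ℝ) ^ (-(1 / 4 : ℝ))) ^ p * (U (i - p) + (v (i - p) - v i)) ≤ 2 * Us i)
    (hB0 : ∀ i, 0 < B i) (hB : ∀ p i, p ≤ i → (L p / L i) ^ (7 / 8 : ℝ) * B i ≤ B p)
    {CW C3 : ℝ} (hC3 : 0 ≤ C3) (hCW : 4096 * (C3 + 3) ≤ CW) {i m : ℕ} {T : ℝ} (hT : L i ≤ T)
    (hT2 : T ≤ 2 * L i) (hm : 1 ≤ m) (hmT : L0 ≤ T / 2 ^ m) :
    ∃ p ≤ i, L p ≤ T / 2 ^ m ∧
      (∀ l : ℝ, 0 < l → l ≤ 2 * (T / 2 ^ m + 1) →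
        C3 * U i + (v p - v i) ≤ wm (CW * Us i * L i) m / (4 * l)) ∧
      CW * (2 : ℝ) ^ (3 * (m : ℝ) / 32 - 26) ≤
        B p / B i * (wm (CW * Us i * L i) m / (4 * (U p * L p))) := by
  classical
  have hLpos : ∀ i, 0 < L i := fun i => by rw [hL]; positivity
  set p := Nat.findGreatest (fun q => L q ≤ T / 2 ^ m) i with hp
  have hp0 : L 0 ≤ T / 2 ^ m := by rw [hL]; simpa using hmT
  have hpi : p ≤ i := Nat.findGreatest_le i
  have hLp : L p ≤ T / 2 ^ m := Nat.findGreatest_spec (P := fun q => L q ≤ T / 2 ^ m) (Nat.zero_le _) hp0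
  have hq : 16 * (i - p) ≤ m + 16 := by
    rcases hpi.eq_or_lt with h | h
    · omega
    · have h1 : ¬ L (p + 1) ≤ T / 2 ^ m := Nat.findGreatest_is_greatest (lt_add_one p) h
      rw [not_le, div_lt_iff₀ (by positivity)] at h1
      have h2 : L i < L (p + 1) * 2 ^ m := hT.trans_lt h1
      rw [hL, hL, mul_assoc, ← pow_add] at h2
      have h3 : (2 : ℝ) ^ (16 * i) < 2 ^ (16 * (p + 1) + m) := by
        have : (0 : ℝ) < L0 := by linarith
        exact lt_of_mul_lt_mul_left h2 this.le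
      have h4 : 16 * i < 16 * (p + 1) + m := (pow_lt_pow_iff_right₀ (by norm_num)).1 h3
      omega
  set q := i - p with hqdef
  have hqi : q ≤ i := Nat.sub_le _ _
  have hpq : i - q = p := by omega
  have hqR : 16 * (q : ℝ) ≤ m + 16 := by exact_mod_cast hq
  have hUs0 : 0 < Us i := (hU i).trans_le (hUU i)
  have hCW0 : 0 < CW := by linarith
  -- U p + (v p - v i) ≤ 2 Us i 2^{(m+16)/64}
  have h1 : U p + (v p - v i) ≤ 2 * Us i * (2 : ℝ) ^ (((m : ℝ) + 16) / 64) := by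
    have h2 := hUs i q hqi
    rw [hpq] at h2
    have h3 : ((2 : ℝ) ^ (-(1 / 4 : ℝ))) ^ q = (2 : ℝ) ^ (-((q : ℝ) / 4)) := by
      rw [← Real.rpow_natCast, ← Real.rpow_mul (by norm_num)]
      congr 1
      ring
    rw [h3] at h2
    have h4 : (2 : ℝ) ^ ((q : ℝ) / 4) * (2 : ℝ) ^ (-((q : ℝ) / 4)) = 1 := by
      rw [← Real.rpow_add (by norm_num)]
      simp
    have h5 : U p + (v p - v i) = (2 : ℝ) ^ ((q : ℝ) / 4) *
        ((2 : ℝ) ^ (-((q : ℝ) / 4)) * (U p + (v p - v i))) := by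
      rw [← mul_assoc, h4, one_mul]
    rw [h5]
    have h6 : (2 : ℝ) ^ ((q : ℝ) / 4) ≤ (2 : ℝ) ^ (((m : ℝ) + 16) / 64) :=
      Real.rpow_le_rpow_of_exponent_le (by norm_num) (by linarith)
    calc (2 : ℝ) ^ ((q : ℝ) / 4) * ((2 : ℝ) ^ (-((q : ℝ) / 4)) * (U p + (v p - v i)))
        ≤ (2 : ℝ) ^ ((q : ℝ) / 4) * (2 * Us i) := mul_le_mul_of_nonneg_left h2 (by positivity)
      _ ≤ (2 : ℝ) ^ (((m : ℝ) + 16) / 64) * (2 * Us i) := mul_le_mul_of_nonneg_right h6 (by positivity)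
      _ = _ := by ring
  have hvv : 0 ≤ v p - v i := by linarith [hv hpi]
  have h16 : (2 : ℝ) ^ (((m : ℝ) + 16) / 64) = (2 : ℝ) ^ ((m : ℝ) / 64) * (2 : ℝ) ^ (1 / 4 : ℝ) := by
    rw [← Real.rpow_add (by norm_num)]
    congr 1
    ring
  have hq4 : (2 : ℝ) ^ (1 / 4 : ℝ) ≤ 5 / 4 := by
    have h2 : (2 : ℝ) ^ (1 / 4 : ℝ) ≤ ((5 / 4 : ℝ) ^ (4 : ℝ)) ^ (1 / 4 : ℝ) := by
      refine Real.rpow_le_rpow (by norm_num) ?_ (by norm_num)
      rw [show (4 : ℝ) = ((4 : ℕ) : ℝ) by norm_num, Real.rpow_natCast]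
      norm_num
    refine h2.trans_eq ?_
    rw [← Real.rpow_mul (by norm_num)]
    norm_num
  set a : ℝ := (2 : ℝ) ^ ((m : ℝ) / 64) with ha
  have ha1 : 1 ≤ a := Real.one_le_rpow (by norm_num) (by positivity)
  have ha0 : 0 < a := by linarith
  have h1' : U p + (v p - v i) ≤ 5 / 2 * Us i * a := by
    refine h1.trans ?_
    rw [h16]
    have : 0 < Us i * a := by positivity
    nlinarith
  have hainv : (2 : ℝ) ^ (-((m : ℝ) / 64)) = a⁻¹ := by rw [ha, Real.rpow_neg (by norm_num)]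
  have h2m : (2 : ℝ) ^ m = a ^ 64 := by
    rw [ha, ← Real.rpow_natCast, ← Real.rpow_natCast, ← Real.rpow_mul (by norm_num)]
    congr 1
    push_cast
    ring
  have hwm : wm (CW * Us i * L i) m = CW * Us i * L i / (128 * a) := by
    unfold wm
    rw [hainv]
    field_simp
  have hT0 : 0 < T := (hLpos i).trans_le hT
  have hLi := hLpos i
  refine ⟨p, hpi, hLp, ?_, ?_⟩
  · intro l hl hl2
    rw [hwm]
    -- l ≤ 8 L_i / 2^m
    have h3 : T / 2 ^ m + 1 ≤ 4 * L i / a ^ 64 := by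
      rw [← h2m]
      have h4 : (1 : ℝ) ≤ T / 2 ^ m := hL0.trans hmT
      have h5 : T / 2 ^ m ≤ 2 * L i / 2 ^ m := div_le_div_of_nonneg_right hT2 (by positivity)
      have h6 : 4 * L i / 2 ^ m = 2 * L i / 2 ^ m + 2 * L i / 2 ^ m := by ring
      rw [h6]
      linarith
    have h4 : l ≤ 8 * L i / a ^ 64 := by
      refine hl2.trans ?_
      have : 8 * L i / a ^ 64 = 2 * (4 * L i / a ^ 64) := by ring
      rw [this]
      linarith
    have h5 : C3 * U i + (v p - v i) ≤ (C3 + 3) * Us i * a := by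
      have h6 : C3 * U i ≤ C3 * Us i := mul_le_mul_of_nonneg_left (hUU i) hC3
      have h7 : C3 * Us i ≤ C3 * Us i * a := le_mul_of_one_le_right (by positivity) ha1
      have h8 := (hU p).le
      have h9 : 0 < Us i * a := by positivity
      nlinarith
    refine h5.trans ?_
    rw [le_div_iff₀ (by positivity)]
    have h6 : (C3 + 3) * Us i * a * (4 * l) ≤ (C3 + 3) * Us i * a * (4 * (8 * L i / a ^ 64)) := by
      refine mul_le_mul_of_nonneg_left (by linarith) (by positivity)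
    refine h6.trans ?_
    have h7 : (C3 + 3) * Us i * a * (4 * (8 * L i / a ^ 64)) =
        (32 * (C3 + 3)) * (Us i * L i) / a ^ 63 := by
      field_simp
      norm_num
    rw [h7]
    have h8 : CW * Us i * L i / (128 * a) = (CW / 128) * (Us i * L i) / a := by field_simp
    rw [h8]
    rw [div_le_div_iff₀ (by positivity) ha0]
    have h9 : 32 * (C3 + 3) ≤ CW / 128 := by linarith
    have h10 : a ≤ a ^ 63 := le_self_pow₀ ha1 (by norm_num)
    have h11 : 0 < Us i * L i := by positivity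
    calc 32 * (C3 + 3) * (Us i * L i) * a ≤ CW / 128 * (Us i * L i) * a := by
          refine mul_le_mul_of_nonneg_right (mul_le_mul_of_nonneg_right h9 h11.le) ha0.le
      _ ≤ CW / 128 * (Us i * L i) * a ^ 63 := mul_le_mul_of_nonneg_left h10 (by positivity)
  · have hUp : U p ≤ 5 / 2 * Us i * a := by linarith
    have hLp' : L p ≤ 2 * L i / a ^ 64 := by
      rw [← h2m]
      exact hLp.trans (div_le_div_of_nonneg_right hT2 (by positivity))
    have h3 : CW * a ^ 62 / 2560 ≤ wm (CW * Us i * L i) m / (4 * (U p * L p)) := by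
      rw [hwm]
      have hUp0 := hU p
      have hLp0 := hLpos p
      have hUL : 0 < 4 * (U p * L p) := by positivity
      rw [le_div_iff₀ hUL]
      have h4 : U p * L p ≤ (5 / 2 * Us i * a) * (2 * L i / a ^ 64) :=
        mul_le_mul hUp hLp' hLp0.le (by positivity)
      have h5 : CW * a ^ 62 / 2560 * (4 * (U p * L p)) ≤
          CW * a ^ 62 / 2560 * (4 * ((5 / 2 * Us i * a) * (2 * L i / a ^ 64))) :=
        mul_le_mul_of_nonneg_left (by linarith) (by positivity)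
      refine h5.trans (le_of_eq ?_)
      field_simp
      norm_num
    have h4 : (2 : ℝ) ^ (-(7 * (m : ℝ) / 8) - 14) ≤ B p / B i := by
      have h5 := hB p i hpi
      rw [le_div_iff₀ (hB0 i)]
      refine le_trans ?_ h5
      refine mul_le_mul_of_nonneg_right ?_ (hB0 i).le
      have h6 : L p / L i = (2 : ℝ) ^ (-(16 * (q : ℝ))) := by
        rw [hL, hL]
        have h7 : 16 * i = 16 * p + 16 * q := by omega
        rw [h7, pow_add, Real.rpow_neg (by norm_num)]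
        have h8 : (2 : ℝ) ^ (16 * (q : ℝ)) = 2 ^ (16 * q) := by
          rw [← Real.rpow_natCast]; push_cast; rfl
        rw [h8]
        have h9 : L0 ≠ 0 := by linarith
        field_simp
      rw [h6, ← Real.rpow_mul (by norm_num)]
      refine Real.rpow_le_rpow_of_exponent_le (by norm_num) ?_
      linarith
    have h5 : CW * (2 : ℝ) ^ (3 * (m : ℝ) / 32 - 26) ≤
        (2 : ℝ) ^ (-(7 * (m : ℝ) / 8) - 14) * (CW * a ^ 62 / 2560) := by
      have h6 : a ^ 62 = (2 : ℝ) ^ (62 * (m : ℝ) / 64) := by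
        rw [ha, ← Real.rpow_natCast, ← Real.rpow_mul (by norm_num)]
        congr 1
        push_cast
        ring
      rw [h6]
      have h7 : (2 : ℝ) ^ (3 * (m : ℝ) / 32 - 26) =
          (2 : ℝ) ^ (-(7 * (m : ℝ) / 8) - 14) * (2 : ℝ) ^ (62 * (m : ℝ) / 64) * (2 : ℝ) ^ (-12 : ℝ) := by
        rw [← Real.rpow_add (by norm_num), ← Real.rpow_add (by norm_num)]
        congr 1
        ring
      have h8 : (2 : ℝ) ^ (-12 : ℝ) ≤ 1 / 2560 := by
        rw [Real.rpow_neg (by norm_num), show (12 : ℝ) = ((12 : ℕ) : ℝ) by norm_num,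
          Real.rpow_natCast]
        norm_num
      rw [h7]
      set x : ℝ := (2 : ℝ) ^ (-(7 * (m : ℝ) / 8) - 14) * (2 : ℝ) ^ (62 * (m : ℝ) / 64) with hx
      have hx0 : 0 < x := by positivity
      have e1 : (2 : ℝ) ^ (-(7 * (m : ℝ) / 8) - 14) * (CW * (2 : ℝ) ^ (62 * (m : ℝ) / 64) / 2560) =
          CW * x / 2560 := by rw [hx]; ring
      rw [e1]
      have h9 : CW * (x * (2 : ℝ) ^ (-12 : ℝ)) ≤ CW * (x * (1 / 2560)) :=
        mul_le_mul_of_nonneg_left (mul_le_mul_of_nonneg_left h8 hx0.le) hCW0.le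
      linarith
    exact h5.trans (mul_le_mul h4 h3 (by positivity) (by
      have := hB0 p; have := hB0 i; positivity))

/-- Below the scale `L0` nothing can be violated. -/
theorem num_void {U Us L : ℕ → ℝ} {L0 : ℝ} (hL : ∀ i, L i = L0 * 2 ^ (16 * i)) (hL0 : 1 ≤ L0)
    (hfl : ∀ i : ℕ, 1 / ((i : ℝ) + 1) ^ 2 ≤ U i) (hUU : ∀ i, U i ≤ Us i)
    {CW : ℝ} (hCW : 2 ^ 20 * L0 ≤ CW) {i m : ℕ} {T : ℝ} (hT : L i ≤ T)
    (hmM : (2 : ℝ) ^ m ≤ 2 * T) (hT2 : T ≤ 2 * L i) (hmT : T / 2 ^ m < L0) :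
    T / 2 ^ m + 1 ≤ wm (CW * Us i * L i) m := by
  have hL00 : 0 < L0 := by linarith
  have hLi : 0 < L i := by rw [hL]; positivity
  have h0 : 0 < (i : ℝ) + 1 := by positivity
  have hUs : 1 / ((i : ℝ) + 1) ^ 2 ≤ Us i := (hfl i).trans (hUU i)
  have h1 : T / 2 ^ m + 1 ≤ 2 * L0 := by linarith
  refine h1.trans ?_
  unfold wm
  -- 2^{m/64} ≤ (4 L_i)^{1/64}
  have h2 : (2 : ℝ) ^ ((m : ℝ) / 64) ≤ (4 * L i) ^ (1 / 64 : ℝ) := by
    have h3 : (2 : ℝ) ^ ((m : ℝ) / 64) = ((2 : ℝ) ^ m) ^ (1 / 64 : ℝ) := by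
      rw [← Real.rpow_natCast, ← Real.rpow_mul (by norm_num)]
      congr 1
      ring
    rw [h3]
    exact Real.rpow_le_rpow (by positivity) (by linarith) (by norm_num)
  have h3 : (4 * L i) ^ (1 / 64 : ℝ) ≤ 2 * L0 ^ (1 / 64 : ℝ) * 2 ^ ((i : ℝ) / 4) := by
    have e1 : 4 * L i = (4 : ℝ) * (L0 * (2 : ℝ) ^ (16 * (i : ℝ))) := by
      rw [hL]
      congr 2
      rw [← Real.rpow_natCast]
      push_cast
      rfl
    rw [e1, Real.mul_rpow (by norm_num) (by positivity), Real.mul_rpow hL00.le (by positivity),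
      ← Real.rpow_mul (by norm_num)]
    have e2 : (16 * (i : ℝ)) * (1 / 64) = (i : ℝ) / 4 := by ring
    rw [e2]
    have e3 : (4 : ℝ) ^ (1 / 64 : ℝ) ≤ 2 := by
      calc (4 : ℝ) ^ (1 / 64 : ℝ) ≤ (4 : ℝ) ^ (1 / 2 : ℝ) :=
            Real.rpow_le_rpow_of_exponent_le (by norm_num) (by norm_num)
        _ = 2 := by
            rw [← Real.sqrt_eq_rpow]
            rw [show (4 : ℝ) = 2 ^ 2 by norm_num]
            exact Real.sqrt_sq (by norm_num)
    have e4 : 0 ≤ L0 ^ (1 / 64 : ℝ) * (2 : ℝ) ^ ((i : ℝ) / 4) := by positivity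
    calc (4 : ℝ) ^ (1 / 64 : ℝ) * (L0 ^ (1 / 64 : ℝ) * (2 : ℝ) ^ ((i : ℝ) / 4))
        ≤ 2 * (L0 ^ (1 / 64 : ℝ) * (2 : ℝ) ^ ((i : ℝ) / 4)) := mul_le_mul_of_nonneg_right e3 e4
      _ = _ := by ring
  have h4 : (2 : ℝ) ^ (-((m : ℝ) / 64)) = ((2 : ℝ) ^ ((m : ℝ) / 64))⁻¹ := Real.rpow_neg (by norm_num) _
  rw [h4]
  have h5 : 0 < (2 : ℝ) ^ ((m : ℝ) / 64) := by positivity
  have h6 : CW * Us i * L i * ((2 : ℝ) ^ ((m : ℝ) / 64))⁻¹ / 128 =
      CW * Us i * L i / (128 * (2 : ℝ) ^ ((m : ℝ) / 64)) := by field_simp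
  rw [h6, le_div_iff₀ (by positivity)]
  have h7 : 2 * L0 * (128 * (2 : ℝ) ^ ((m : ℝ) / 64)) ≤
      2 * L0 * (128 * (2 * L0 ^ (1 / 64 : ℝ) * 2 ^ ((i : ℝ) / 4))) := by
    refine mul_le_mul_of_nonneg_left ?_ (by positivity)
    linarith [h2.trans h3]
  refine h7.trans ?_
  have h8 : (2 : ℝ) ^ 20 * L0 * (1 / ((i : ℝ) + 1) ^ 2) * (L0 * 2 ^ (16 * i)) ≤ CW * Us i * L i := by
    rw [← hL i]
    refine mul_le_mul_of_nonneg_right ?_ hLi.le
    exact mul_le_mul hCW hUs (by positivity) (by nlinarith)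
  refine le_trans ?_ h8
  have h9 : L0 ^ (1 / 64 : ℝ) ≤ L0 := by
    calc L0 ^ (1 / 64 : ℝ) ≤ L0 ^ (1 : ℝ) := Real.rpow_le_rpow_of_exponent_le hL0 (by norm_num)
      _ = L0 := Real.rpow_one _
  have h10 : (2 : ℝ) ^ ((i : ℝ) / 4) ≤ 2 ^ (i : ℕ) := by
    rw [← Real.rpow_natCast]
    exact Real.rpow_le_rpow_of_exponent_le (by norm_num) (by
      have : (0 : ℝ) ≤ i := by positivity
      linarith)
  have h11 : ((i : ℝ) + 1) ^ 2 ≤ 2 ^ (2 * i) := by
    have h12 : (i : ℝ) + 1 ≤ 2 ^ i := by exact_mod_cast Nat.lt_two_pow_self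
    calc ((i : ℝ) + 1) ^ 2 ≤ (2 ^ i) ^ 2 := pow_le_pow_left₀ (by positivity) h12 2
      _ = 2 ^ (2 * i) := by rw [← pow_mul, mul_comm]
  have h12 : 2 * L0 * (128 * (2 * L0 ^ (1 / 64 : ℝ) * 2 ^ ((i : ℝ) / 4))) ≤
      512 * (L0 * L0) * 2 ^ i := by
    have e1 : L0 ^ (1 / 64 : ℝ) * 2 ^ ((i : ℝ) / 4) ≤ L0 * 2 ^ i :=
      mul_le_mul h9 h10 (by positivity) hL00.le
    have e2 : 2 * L0 * (128 * (2 * L0 ^ (1 / 64 : ℝ) * 2 ^ ((i : ℝ) / 4))) =
        512 * L0 * (L0 ^ (1 / 64 : ℝ) * 2 ^ ((i : ℝ) / 4)) := by ring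
    rw [e2]
    calc 512 * L0 * (L0 ^ (1 / 64 : ℝ) * 2 ^ ((i : ℝ) / 4)) ≤ 512 * L0 * (L0 * 2 ^ i) :=
          mul_le_mul_of_nonneg_left e1 (by positivity)
      _ = _ := by ring
  refine h12.trans ?_
  have e3 : (2 : ℝ) ^ 20 * L0 * (1 / ((i : ℝ) + 1) ^ 2) * (L0 * 2 ^ (16 * i)) =
      (L0 * L0) * (2 ^ 20 * 2 ^ (16 * i) / ((i : ℝ) + 1) ^ 2) := by
    field_simp
  rw [e3]
  have e4 : (512 : ℝ) * 2 ^ i ≤ 2 ^ 20 * 2 ^ (16 * i) / ((i : ℝ) + 1) ^ 2 := by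
    rw [le_div_iff₀ (by positivity)]
    calc (512 : ℝ) * 2 ^ i * ((i : ℝ) + 1) ^ 2 ≤ 512 * 2 ^ i * 2 ^ (2 * i) :=
          mul_le_mul_of_nonneg_left h11 (by positivity)
      _ = 512 * 2 ^ (3 * i) := by rw [mul_assoc, ← pow_add]; congr 2; ring
      _ ≤ 2 ^ 20 * 2 ^ (16 * i) := by
          have : (2 : ℝ) ^ (3 * i) ≤ 2 ^ (16 * i) := pow_le_pow_right₀ (by norm_num) (by omega)
          have h0 : (0 : ℝ) < 2 ^ (3 * i) := by positivity
          nlinarith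
  calc 512 * (L0 * L0) * 2 ^ i = (L0 * L0) * (512 * 2 ^ i) := by ring
    _ ≤ _ := mul_le_mul_of_nonneg_left e4 (by positivity)

/-- The sum over all dyadic intervals is small if `CW` is large. -/
theorem sum_small {κ C ε : ℝ} (hκ : 0 < κ) (hC : 0 ≤ C) (hε : 0 < ε) :
    ∃ K : ℝ, 0 < K ∧ ∀ CW, K ≤ CW → ∀ M : ℕ,
      ∑ m ∈ Icc 1 M, C * 4 ^ m * Real.exp (-(κ * (CW * (2 : ℝ) ^ (3 * (m : ℝ) / 32 - 26)))) ≤ ε := by
  set b : ℝ := κ * (2 : ℝ) ^ (-26 : ℝ) with hb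
  have hb0 : 0 < b := by positivity
  refine ⟨48 / b + C / (b * ε) + 1, by positivity, fun CW hCW M => ?_⟩
  have h0 : 0 < 48 / b + C / (b * ε) + 1 := by positivity
  have hCW0 : 0 < CW := h0.trans_le hCW
  have h1 : 48 ≤ b * CW := by
    have : 48 / b ≤ CW := by
      have : 0 ≤ C / (b * ε) := by positivity
      linarith
    rw [div_le_iff₀ hb0] at this
    linarith
  have h2 : C ≤ b * CW * ε := by
    have h3 : C / (b * ε) ≤ CW := by
      have : 0 ≤ 48 / b := by positivity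
      linarith
    rw [div_le_iff₀ (by positivity)] at h3
    linarith
  have h3 : ∀ m : ℕ, C * 4 ^ m * Real.exp (-(κ * (CW * (2 : ℝ) ^ (3 * (m : ℝ) / 32 - 26)))) ≤
      C * Real.exp (-(b * CW)) * (1 / 2) ^ m := by
    intro m
    have h4 : 1 + (m : ℝ) / 16 ≤ (2 : ℝ) ^ (3 * (m : ℝ) / 32) := by
      have h5 : (2 : ℝ) ^ (3 * (m : ℝ) / 32) = Real.exp (Real.log 2 * (3 * (m : ℝ) / 32)) := by
        rw [Real.rpow_def_of_pos (by norm_num)]
      rw [h5]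
      have h6 := Real.add_one_le_exp (Real.log 2 * (3 * (m : ℝ) / 32))
      have h7 : (0.6931471803 : ℝ) < Real.log 2 := Real.log_two_gt_d9
      have h8 : (0 : ℝ) ≤ m := by positivity
      nlinarith
    have h5 : κ * (CW * (2 : ℝ) ^ (3 * (m : ℝ) / 32 - 26)) = b * CW * (2 : ℝ) ^ (3 * (m : ℝ) / 32) := by
      rw [hb, Real.rpow_sub (by norm_num), Real.rpow_neg (by norm_num)]
      field_simp
    have h6 : b * CW + 3 * m ≤ b * CW * (2 : ℝ) ^ (3 * (m : ℝ) / 32) := by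
      have h7 : b * CW * (1 + (m : ℝ) / 16) ≤ b * CW * (2 : ℝ) ^ (3 * (m : ℝ) / 32) :=
        mul_le_mul_of_nonneg_left h4 (by positivity)
      have h8 : (0 : ℝ) ≤ m := by positivity
      nlinarith
    rw [h5]
    have h7 : Real.exp (-(b * CW * (2 : ℝ) ^ (3 * (m : ℝ) / 32))) ≤
        Real.exp (-(b * CW)) * (1 / 8) ^ m := by
      have h8 : (1 / 8 : ℝ) ^ m = Real.exp (-(Real.log 8 * m)) := by
        rw [Real.exp_neg, ← Real.rpow_def_of_pos (by norm_num), Real.rpow_natCast]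
        simp
      rw [h8, ← Real.exp_add]
      refine Real.exp_le_exp.2 ?_
      have h9 : Real.log 8 ≤ 3 := by
        have : Real.log 8 = 3 * Real.log 2 := by
          rw [show (8 : ℝ) = 2 ^ (3 : ℕ) by norm_num, Real.log_pow]; norm_num
        rw [this]
        have := Real.log_two_lt_d9
        linarith
      have h10 : (0 : ℝ) ≤ m := by positivity
      nlinarith
    calc C * 4 ^ m * Real.exp (-(b * CW * (2 : ℝ) ^ (3 * (m : ℝ) / 32)))
        ≤ C * 4 ^ m * (Real.exp (-(b * CW)) * (1 / 8) ^ m) :=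
          mul_le_mul_of_nonneg_left h7 (by positivity)
      _ = C * Real.exp (-(b * CW)) * (1 / 2) ^ m := by
          have : (1 / 2 : ℝ) ^ m = 4 ^ m * (1 / 8) ^ m := by rw [← mul_pow]; norm_num
          rw [this]; ring
  have h4 : ∑ m ∈ Icc 1 M, C * Real.exp (-(b * CW)) * (1 / 2 : ℝ) ^ m ≤ C * Real.exp (-(b * CW)) := by
    have h5 : ∀ M : ℕ, ∑ m ∈ Icc 1 M, (1 / 2 : ℝ) ^ m = 1 - (1 / 2) ^ M := by
      intro M
      induction M with
      | zero => simp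
      | succ M ih => rw [Finset.sum_Icc_succ_top (by omega), ih]; ring
    rw [← Finset.mul_sum, h5]
    have h6 : 0 ≤ C * Real.exp (-(b * CW)) := by positivity
    have h7 : (0 : ℝ) < (1 / 2) ^ M := by positivity
    nlinarith
  refine (Finset.sum_le_sum fun m _ => h3 m).trans (h4.trans ?_)
  have h5 : Real.exp (-(b * CW)) ≤ 1 / (b * CW) := by
    rw [Real.exp_neg, ← one_div]
    refine one_div_le_one_div_of_le (by positivity) ?_
    linarith [Real.add_one_le_exp (b * CW)]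
  calc C * Real.exp (-(b * CW)) ≤ C * (1 / (b * CW)) := mul_le_mul_of_nonneg_left h5 hC
    _ ≤ (b * CW * ε) * (1 / (b * CW)) := mul_le_mul_of_nonneg_right h2 (by positivity)
    _ = ε := by field_simp

end Pool.Agent.W_7d29a1_f21
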